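import Mathlib
import Pool.Agent.Q172.NatBdE

open Set Metric Filter Topology
open scoped Topology NNReal ContDiff

namespace Pool.Agent.Results.MP_ca9574_an.NaturalBoundary

open Pool.Agent.Q172.NatBd

/-- `f` belongs to `A^∞(B)` of the open unit ball `B` of `ℂⁿ`: it is holomorphic in `B` and, for
every `k`, its `k`-th total complex derivative extends continuously to the closed ball. -/
def IsAInfty {n : ℕ} (f : EuclideanSpace ℂ (Fin n) → ℂ) : Prop :=
  DifferentiableOn ℂ f (ball 0 1) ∧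
  ∀ k : ℕ, ∃ g : EuclideanSpace ℂ (Fin n) →
      ContinuousMultilinearMap ℂ (fun _ : Fin k => EuclideanSpace ℂ (Fin n)) ℂ,
    ContinuousOn g (closedBall 0 1) ∧ ∀ z ∈ ball (0 : EuclideanSpace ℂ (Fin n)) 1,
      g z = iteratedFDeriv ℂ k f z

/-- `g`, a function on the open unit disc `U`, has the unit circle as natural boundary: for no
point `τ` of the circle is there an open disc `D ∋ τ` and a holomorphic `h` on `D` with `h = g` on
`D ∩ U`. -/
def HasNaturalBoundary (g : ℂ → ℂ) : Prop :=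
  ∀ τ : ℂ, ‖τ‖ = 1 → ¬ ∃ (c : ℂ) (r : ℝ) (h : ℂ → ℂ), τ ∈ ball c r ∧
    DifferentiableOn ℂ h (ball c r) ∧ ∀ z ∈ ball c r ∩ ball (0 : ℂ) 1, h z = g z

/-- In every dimension there is a function in `A^∞(B)` whose composition with every nonconstant
affine map `Φ(z) = a + z b` with `Φ(T) ⊆ S` has the unit circle as natural boundary. -/
theorem result (n : ℕ) : ∃ f : EuclideanSpace ℂ (Fin n) → ℂ, IsAInfty f ∧
    ∀ a b : EuclideanSpace ℂ (Fin n), b ≠ 0 → (∀ z : ℂ, ‖z‖ = 1 → ‖a + z • b‖ = 1) →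
      HasNaturalBoundary (fun z => f (a + z • b)) := by
  obtain ⟨y, hy⟩ := exists_good n
  refine ⟨F n y, ⟨F_differentiableOn y, F_AInf y⟩, ?_⟩
  intro a b hb hab τ hτ
  rintro ⟨c, r, h, hτc, hh, hhg⟩
  obtain ⟨h1, h2⟩ := affine_disc hab
  -- a small closed disc around τ
  obtain ⟨δ, hδ, hδr⟩ : ∃ δ > 0, closedBall τ δ ⊆ ball c r := by
    obtain ⟨ε, hε, hεr⟩ := Metric.isOpen_iff.1 isOpen_ball τ hτc
    exact ⟨ε / 2, by positivity, (closedBall_subset_ball (by linarith)).trans hεr⟩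
  obtain ⟨M, hM⟩ := (isCompact_closedBall τ δ).exists_bound_of_continuousOn
    (hh.continuousOn.mono hδr)
  -- the level
  obtain ⟨m, hm⟩ := exists_nat_gt (max M (max (1 / ‖b‖) (2 / δ)))
  have hbpos : 0 < ‖b‖ := norm_pos_iff.2 hb
  have hmM : M ≤ m := (le_max_left _ _).trans hm.le
  have hmb : 1 / ((m : ℝ) + 1) ≤ ‖b‖ := by
    have h3 : 1 / ‖b‖ < m := (le_max_left _ _).trans_lt ((le_max_right _ _).trans_lt hm)
    rw [div_le_iff₀ (by positivity)]
    rw [div_lt_iff₀ hbpos] at h3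
    nlinarith
  have hmδ : 2 * Rm m ≤ δ := by
    have h3 : 2 / δ < m := (le_max_right _ _).trans_lt ((le_max_right _ _).trans_lt hm)
    unfold Rm
    rw [div_lt_iff₀ hδ] at h3
    rw [mul_one_div, div_le_iff₀ (by positivity)]
    nlinarith
  have hR := Rm_pos m
  have hsub : closedBall (ctr m τ) (Rm m) ⊆ closedBall τ δ := by
    refine closedBall_subset_closedBall' ?_
    have : dist (ctr m τ) τ = Rm m / 2 := by
      have e : ctr m τ - τ = ((-(Rm m / 2) : ℝ) : ℂ) * τ := by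
        unfold ctr; push_cast; ring
      rw [dist_eq_norm, e, norm_mul, hτ, mul_one, Complex.norm_real, norm_neg,
        Real.norm_of_nonneg (by positivity)]
    rw [this]
    linarith
  obtain ⟨k, hk⟩ := hy m ⟨(a, b, τ), h1, h2, hτ, hmb⟩
  have hle : ‖coef n m k (y, ⟨(a, b, τ), h1, h2, hτ, hmb⟩)‖ ≤ M * (Rm m)⁻¹ ^ k := by
    refine norm_cauchyPowerSeries_le_of_extension (h := h) (by positivity) (by linarith)
      (hh.mono (hsub.trans hδr)) (fun z hz => hM z (hsub hz)) ?_ k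
    intro z hz
    have hz1 : z ∈ closedBall (ctr m τ) (Rm m) :=
      closedBall_subset_closedBall (by linarith) hz
    refine (hhg z ⟨hδr (hsub hz1), ?_⟩).symm
    rw [mem_ball_zero_iff]
    exact ctr_circle_norm hτ hz
  have h5 : M * (Rm m)⁻¹ ^ k ≤ m * (Rm m)⁻¹ ^ k := by
    have : 0 ≤ (Rm m)⁻¹ ^ k := by positivity
    nlinarith
  linarith

end Pool.Agent.Results.MP_ca9574_an.NaturalBoundary
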